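import Pool.Agent.Helper12.MA.StC

/-!
# Project MA (MP_d63854_co), module HTR: no three elements of type TH
-/

set_option autoImplicit false

namespace Pool.Agent.Helper41.MA

open Pool.Agent.Helper12.MA
open Pool.Agent.Helper51.AJ (IsMinor Planar Apex ExMinor Con Tch)
open Pool.Agent.Helper12.NK (rst Kc add cnt Pcy IsFace Cof plus)

private theorem ncard4 {V : Type} (a b c d : V) : ({a, b, c, d} : Set V).ncard ≤ 4 := by
  have h1 : ({a, b, c, d} : Set V).ncard ≤ ({b, c, d} : Set V).ncard + 1 := Set.ncard_insert_le _ _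
  have h2 : ({b, c, d} : Set V).ncard ≤ ({c, d} : Set V).ncard + 1 := Set.ncard_insert_le _ _
  have h3 : ({c, d} : Set V).ncard ≤ ({d} : Set V).ncard + 1 := Set.ncard_insert_le _ _
  have h4 : ({d} : Set V).ncard = 1 := Set.ncard_singleton d
  omega

theorem hHTR (hF : StFNB) (hD : StDGT) (hB : StBAS) (hH : StHFA) (hC : StCLS) : StHTR := by
  intro V _ G z v p q r r' f1 f2 f3 f4 cfg w₁ w₂ w₃ F₁ F₂ F₃ a1 a2 a3 z1 z2 z3 n12 n23 n13 t1 t2 t3
  obtain ⟨pn, -, -, -, -⟩ := hH V G z v p q r r' f1 f2 f3 f4 cfg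
  obtain ⟨-, cl, -, -⟩ := hC V G z v p q r r' f1 f2 f3 f4 cfg
  obtain ⟨-, -, -, b5, -, b6, -⟩ := hB V G cfg.bh
  obtain ⟨-, -, -, -, f5, -⟩ := hF V G {z, v}ᶜ pn
  obtain ⟨if1, s1⟩ := t1
  obtain ⟨if2, s2⟩ := t2
  obtain ⟨if3, s3⟩ := t3
  -- `w i` is not in `F i`
  have key : ∀ (w : V) (F : Set V), IsFace G {z, v}ᶜ F → {a | G.Adj v a} \ {z, w} ⊆ F → w ∉ F := by
    intro w F hf hs hw
    refine cl F hf ?_
    rintro x ⟨hx, hxz⟩
    by_cases hxw : x = w
    · rw [hxw]; exact hw
    · refine hs ⟨hx, ?_⟩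
      rintro (h | h)
      · exact hxz h
      · exact hxw h
  have m : ∀ (w x : V) (F : Set V), {a | G.Adj v a} \ {z, w} ⊆ F → G.Adj v x → x ≠ z → x ≠ w → x ∈ F := by
    intro w x F hs hx hz hw
    refine hs ⟨hx, ?_⟩
    rintro (h | h)
    · exact hz h
    · exact hw h
  have k1 := key w₁ F₁ if1 s1
  have k2 := key w₂ F₂ if2 s2
  have k3 := key w₃ F₃ if3 s3
  have e12 : F₁ ≠ F₂ := fun h => k1 (h ▸ m w₂ w₁ F₂ s2 a1 z1 n12)
  have e13 : F₁ ≠ F₃ := fun h => k1 (h ▸ m w₃ w₁ F₃ s3 a1 z1 n13)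
  have e23 : F₂ ≠ F₃ := fun h => k2 (h ▸ m w₃ w₂ F₃ s3 a2 z2 n23)
  -- a fourth neighbour
  have hN : 5 ≤ {a | G.Adj v a}.ncard := b5 v
  obtain ⟨w₄, a4, h4⟩ : ∃ w₄, G.Adj v w₄ ∧ w₄ ∉ ({z, w₁, w₂, w₃} : Set V) := by
    by_contra hno
    push Not at hno
    have hs : {a | G.Adj v a} ⊆ ({z, w₁, w₂, w₃} : Set V) := fun x hx => hno x hx
    have := Set.ncard_le_ncard hs (Set.toFinite _)
    have := ncard4 z w₁ w₂ w₃
    omega
  have z4 : w₄ ≠ z := fun h => h4 (by simp [h])
  have n14 : w₄ ≠ w₁ := fun h => h4 (by simp [h])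
  have n24 : w₄ ≠ w₂ := fun h => h4 (by simp [h])
  have n34 : w₄ ≠ w₃ := fun h => h4 (by simp [h])
  -- there is no fifth one
  have all : ∀ x, G.Adj v x → x = z ∨ x = w₁ ∨ x = w₂ ∨ x = w₃ ∨ x = w₄ := by
    intro x hx
    by_contra hno
    push Not at hno
    obtain ⟨x0, x1, x2, x3, x4⟩ := hno
    exact e12 (f5 F₁ F₂ if1 if2 w₃ w₄ x (m w₁ w₃ F₁ s1 a3 z3 n13.symm) (m w₁ w₄ F₁ s1 a4 z4 n14)
      (m w₁ x F₁ s1 hx x0 x1) (m w₂ w₃ F₂ s2 a3 z3 n23.symm) (m w₂ w₄ F₂ s2 a4 z4 n24)
      (m w₂ x F₂ s2 hx x0 x2) n34.symm x4.symm x3.symm)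
  have hv : ∀ x, G.Adj v x → x ≠ z → x ∈ ({z, v}ᶜ : Set V) := by
    intro x hx hz hc
    rcases hc with h | h
    · exact hz h
    · exact G.ne_of_adj hx h.symm
  -- the neighbours of `w₄`
  have dg : ∀ t, t ≠ z → t ≠ v → G.Adj w₄ t → t = w₁ ∨ t = w₂ ∨ t = w₃ := by
    intro t tz tv ht
    have inj : Function.Injective (![w₁, w₂, w₃, w₄] : Fin 4 → V) := by
      intro i j hij
      fin_cases i <;> fin_cases j
      · rfl
      · exact absurd hij n12
      · exact absurd hij n13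
      · exact absurd hij n14.symm
      · exact absurd hij n12.symm
      · rfl
      · exact absurd hij n23
      · exact absurd hij n24.symm
      · exact absurd hij n13.symm
      · exact absurd hij n23.symm
      · rfl
      · exact absurd hij n34.symm
      · exact absurd hij n14
      · exact absurd hij n24
      · exact absurd hij n34
      · rfl
    have injF : Function.Injective (![F₁, F₂, F₃] : Fin 3 → Set V) := by
      intro i j hij
      fin_cases i <;> fin_cases j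
      · rfl
      · exact absurd hij e12
      · exact absurd hij e13
      · exact absurd hij e12.symm
      · rfl
      · exact absurd hij e23
      · exact absurd hij e13.symm
      · exact absurd hij e23.symm
      · rfl
    have h := hD V G {z, v}ᶜ ![w₁, w₂, w₃, w₄] ![F₁, F₂, F₃] pn inj
      (by
        intro i
        fin_cases i
        · exact hv w₁ a1 z1
        · exact hv w₂ a2 z2
        · exact hv w₃ a3 z3
        · exact hv w₄ a4 z4)
      injF
      (by
        intro i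
        fin_cases i
        · exact if1
        · exact if2
        · exact if3)
      (by
        intro i j hij
        fin_cases i <;> fin_cases j
        · exact absurd rfl hij
        · exact m w₁ w₂ F₁ s1 a2 z2 n12.symm
        · exact m w₁ w₃ F₁ s1 a3 z3 n13.symm
        · exact m w₁ w₄ F₁ s1 a4 z4 n14
        · exact m w₂ w₁ F₂ s2 a1 z1 n12
        · exact absurd rfl hij
        · exact m w₂ w₃ F₂ s2 a3 z3 n23.symm
        · exact m w₂ w₄ F₂ s2 a4 z4 n24
        · exact m w₃ w₁ F₃ s3 a1 z1 n13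
        · exact m w₃ w₂ F₃ s3 a2 z2 n23
        · exact absurd rfl hij
        · exact m w₃ w₄ F₃ s3 a4 z4 n34)
      t (by
        intro hc
        rcases hc with h | h
        · exact tz h
        · exact tv h) ht
    obtain ⟨i, hi⟩ := h
    fin_cases i
    · exact Or.inl hi
    · exact Or.inr (Or.inl hi)
    · exact Or.inr (Or.inr hi)
    · exact absurd hi (G.ne_of_adj ht).symm
  have hnb : Nb G {v, w₄} ⊆ ({z, w₁, w₂, w₃} : Set V) := by
    rintro b ⟨hb, a, ha, hab⟩
    have hbv : b ≠ v := fun h => hb (Or.inl h)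
    have hb4 : b ≠ w₄ := fun h => hb (Or.inr h)
    rcases ha with ha | ha
    · subst ha
      rcases all b hab with h | h | h | h | h
      · exact Or.inl h
      · exact Or.inr (Or.inl h)
      · exact Or.inr (Or.inr (Or.inl h))
      · exact Or.inr (Or.inr (Or.inr h))
      · exact absurd h hb4
    · rw [Set.mem_singleton_iff] at ha
      subst ha
      by_cases hbz : b = z
      · exact Or.inl hbz
      · rcases dg b hbz hbv hab with h | h | h
        · exact Or.inr (Or.inl h)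
        · exact Or.inr (Or.inr (Or.inl h))
        · exact Or.inr (Or.inr (Or.inr h))
  have hle : (Nb G {v, w₄}).ncard ≤ 4 :=
    (Set.ncard_le_ncard hnb (Set.toFinite _)).trans (ncard4 z w₁ w₂ w₃)
  have hu := b6 {v, w₄} ⟨v, Or.inl rfl⟩ hle
  have hc : (Set.univ : Set V).ncard ≤ 6 := by
    rw [← hu]
    have h1 := Set.ncard_union_le ({v, w₄} : Set V) (Nb G {v, w₄})
    have h2 : ({v, w₄} : Set V).ncard ≤ ({w₄} : Set V).ncard + 1 := Set.ncard_insert_le _ _
    have h3 : ({w₄} : Set V).ncard = 1 := Set.ncard_singleton w₄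
    omega
  rw [Set.ncard_univ] at hc
  have := cfg.bh.n8
  omega

end Pool.Agent.Helper41.MA
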